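import Pool.Agent.Q275.UM.IsoA

/-! # Project UM5, job ISOW: the trace inequality for clusters with weights -/

set_option autoImplicit false

open scoped BigOperators ComplexConjugate

namespace Pool.Agent.Q275.UM

open H370 TH803UC TH803CL

open Classical in
theorem sum_if_pair (P : Finset ℂ) (a : ℂ → Prop) (π : ℂ → ℂ) (G : ℂ → ℂ → ℝ) :
    ∑ z ∈ P, ∑ w ∈ P, (if a z ∧ a w ∧ π z = π w then G z w else 0) =
      ∑ z ∈ P.filter a, ∑ w ∈ P.filter a, (if π z = π w then G z w else 0) := by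
  rw [Finset.sum_filter a]
  refine Finset.sum_congr rfl fun z _ => ?_
  by_cases hz : a z
  · rw [if_pos hz, Finset.sum_filter a]
    refine Finset.sum_congr rfl fun w _ => ?_
    by_cases hw : a w
    · rw [if_pos hw]
      by_cases h : π z = π w
      · rw [if_pos h, if_pos ⟨hz, hw, h⟩]
      · rw [if_neg h, if_neg (fun h' => h h'.2.2)]
    · rw [if_neg hw, if_neg (fun h' => hw h'.2.1)]
  · rw [if_neg hz]
    exact Finset.sum_eq_zero fun w _ => if_neg (fun h' => hz h'.1)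

open Classical in
theorem sum_if_diag (P : Finset ℂ) (b : ℂ → Prop) [DecidablePred b] (g : ℂ → ℝ) :
    ∑ z ∈ P, ∑ w ∈ P, (if z = w ∧ b z then g z else 0) = ∑ z ∈ P, if b z then g z else 0 := by
  refine Finset.sum_congr rfl fun z hz => ?_
  by_cases hb : b z
  · rw [if_pos hb]
    have h1 : ∀ w ∈ P, (if z = w ∧ b z then g z else 0) = if z = w then g z else 0 := by
      intro w _
      by_cases h : z = w
      · rw [if_pos ⟨h, hb⟩, if_pos h]
      · rw [if_neg (fun h' => h h'.1), if_neg h]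
    rw [Finset.sum_congr rfl h1, Finset.sum_ite_eq, if_pos hz]
  · rw [if_neg hb]
    exact Finset.sum_eq_zero fun w _ => if_neg (fun h' => hb h'.2)

open Classical in
/-- **the trace inequality, clusters of the points with `a` and far points** -/
theorem trace_cl {E : Type*} [NormedAddCommGroup E] [InnerProductSpace ℂ E]
    (K : ℂ → ℂ → ℂ) (k : ℂ → E) (hk : ∀ z w, inner ℂ (k z) (k w) = K ((starRingEnd ℂ) z) w)
    (hsym : ∀ z w, K z w = K w z)
    (Z : Finset ℂ) (hZ : ∀ z ∈ Z, (starRingEnd ℂ) z ∈ Z) (m : ℂ → ℕ)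
    (hmc : ∀ z ∈ Z, m ((starRingEnd ℂ) z) = m z) (hm1 : ∀ z ∈ Z, 1 ≤ m z)
    (a far : ℂ → Prop) (π : ℂ → ℂ) (κ W : ℂ → ℝ) (hκ : ∀ b, 0 ≤ κ b ∧ κ b ≤ 2)
    (hW : ∀ b, W b = ∑ z ∈ ((Z.filter (fun z => 0 ≤ z.im)).filter a).filter (fun z => π z = b),
      cw m z) :
    ∑ z ∈ (Z.filter (fun z => 0 ≤ z.im)).filter a, ∑ w ∈ (Z.filter (fun z => 0 ≤ z.im)).filter a,
      (if π z = π w then (κ (π z) / W (π z) * (cw m z * cw m w) *
        ((K ((starRingEnd ℂ) z) w).re + (K ((starRingEnd ℂ) z) ((starRingEnd ℂ) w)).re) -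
          (κ (π z) / W (π z)) ^ 2 * (cw m z * cw m w)) else 0) +
      ∑ z ∈ Z.filter (fun z => 0 ≤ z.im), (if ¬ a z ∧ far z then
        (2 * (cw m z * ((K ((starRingEnd ℂ) z) z).re + (K ((starRingEnd ℂ) z)
          ((starRingEnd ℂ) z)).re)) - 4) else 0) ≤
      (∑ z ∈ Z, ∑ w ∈ Z, (m z : ℂ) * (m w : ℂ) * (K z w) ^ 2).re +
        ∑ z ∈ Z.filter (fun z => 0 ≤ z.im),
          2 * cw m z * ((K ((starRingEnd ℂ) z) z).re - (K z z).re) := by
  set P := Z.filter (fun z => 0 ≤ z.im) with hP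
  set Pa := P.filter a with hPa
  have hPm : ∀ z ∈ P, z ∈ Z ∧ 0 ≤ z.im := fun z hz => by rwa [hP, Finset.mem_filter] at hz
  have hW1 : ∀ b ∈ Pa.image π, 1 ≤ W b := by
    intro b hb
    rw [Finset.mem_image] at hb
    obtain ⟨z, hz, rfl⟩ := hb
    have hzP := hPm z (Finset.mem_filter.1 hz).1
    refine (cw_ge hm1 hzP.1).trans ?_
    rw [hW]
    refine Finset.single_le_sum (f := fun z => cw m z) (fun w _ => cw_nonneg m w) ?_
    rw [Finset.mem_filter]
    exact ⟨hz, rfl⟩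
  set D : ℂ → ℂ → ℝ := fun z w => (if a z ∧ a w ∧ π z = π w then
    κ (π z) / W (π z) * (Real.sqrt (cw m z) * Real.sqrt (cw m w)) else 0) +
      (if z = w ∧ (¬ a z ∧ far z) then 2 else 0) with hD
  have hD2 : ∀ v : ℂ → ℂ, ∑ i ∈ P, ∑ j ∈ P, D i j * ((starRingEnd ℂ (v i)) * v j).re ≤
        2 * ∑ i ∈ P, ‖v i‖ ^ 2 := by
    intro v
    have e1 : ∀ i ∈ P, ∀ j ∈ P, D i j * ((starRingEnd ℂ (v i)) * v j).re =
        (if a i ∧ a j ∧ π i = π j then κ (π i) / W (π i) *
          (Real.sqrt (cw m i) * Real.sqrt (cw m j)) * ((starRingEnd ℂ (v i)) * v j).re else 0) +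
        (if i = j ∧ (¬ a i ∧ far i) then 2 * ‖v i‖ ^ 2 else 0) := by
      intro i _ j _
      simp only [hD]
      rw [add_mul, ite_mul, zero_mul, ite_mul, zero_mul]
      congr 1
      by_cases h : i = j ∧ (¬ a i ∧ far i)
      · rw [if_pos h, if_pos h]
        obtain ⟨rfl, -⟩ := h
        congr 1
        rw [← Complex.normSq_eq_conj_mul_self, Complex.ofReal_re, Complex.normSq_eq_norm_sq]
      · rw [if_neg h, if_neg h]
    rw [Finset.sum_congr rfl fun i hi => Finset.sum_congr rfl fun j hj => e1 i hi j hj]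
    simp only [Finset.sum_add_distrib]
    rw [sum_if_pair P a π (fun i j => κ (π i) / W (π i) *
          (Real.sqrt (cw m i) * Real.sqrt (cw m j)) * ((starRingEnd ℂ (v i)) * v j).re),
      sum_if_diag P (fun z => ¬ a z ∧ far z) (fun i => 2 * ‖v i‖ ^ 2)]
    have e2 : ∑ i ∈ Pa, ∑ j ∈ Pa, (if π i = π j then κ (π i) / W (π i) *
          (Real.sqrt (cw m i) * Real.sqrt (cw m j)) * ((starRingEnd ℂ (v i)) * v j).re else 0) ≤
          2 * ∑ i ∈ Pa, ‖v i‖ ^ 2 := by
      rw [sum_fib, sum_fib1 Pa π (fun i => ‖v i‖ ^ 2), Finset.mul_sum]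
      refine Finset.sum_le_sum fun b hb => ?_
      set C := Pa.filter (fun z => π z = b) with hC
      have hWa := hW1 b hb
      have hWa0 : 0 < W b := by linarith
      have h1 : ∑ i ∈ C, ∑ j ∈ C, κ (π i) / W (π i) * (Real.sqrt (cw m i) * Real.sqrt (cw m j)) *
            ((starRingEnd ℂ (v i)) * v j).re ≤ κ b / W b *
            (∑ i ∈ C, Real.sqrt (cw m i) * ‖v i‖) ^ 2 := by
        rw [sq, Finset.sum_mul_sum, Finset.mul_sum]
        refine Finset.sum_le_sum fun i hi => ?_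
        rw [Finset.mul_sum]
        refine Finset.sum_le_sum fun j hj => ?_
        have hi2 : π i = b := (Finset.mem_filter.1 hi).2
        rw [hi2]
        have h2 : ((starRingEnd ℂ (v i)) * v j).re ≤ ‖v i‖ * ‖v j‖ := by
          refine (Complex.re_le_norm _).trans ?_
          rw [norm_mul, RCLike.norm_conj]
        have h3 : 0 ≤ κ b / W b := div_nonneg (hκ b).1 hWa0.le
        calc κ b / W b * (Real.sqrt (cw m i) * Real.sqrt (cw m j)) *
            ((starRingEnd ℂ (v i)) * v j).re ≤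
            κ b / W b * (Real.sqrt (cw m i) * Real.sqrt (cw m j)) * (‖v i‖ * ‖v j‖) := by gcongr
          _ = _ := by ring
      refine h1.trans ?_
      have h4 : (∑ i ∈ C, Real.sqrt (cw m i) * ‖v i‖) ^ 2 ≤
          (∑ i ∈ C, (Real.sqrt (cw m i)) ^ 2) * (∑ i ∈ C, ‖v i‖ ^ 2) :=
        Finset.sum_mul_sq_le_sq_mul_sq C _ _
      have h5 : ∑ i ∈ C, (Real.sqrt (cw m i)) ^ 2 = W b := by
        rw [hW]
        exact Finset.sum_congr rfl fun i _ => Real.sq_sqrt (cw_nonneg m i)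
      rw [h5] at h4
      have h6 : 0 ≤ κ b / W b := div_nonneg (hκ b).1 hWa0.le
      have h7 : 0 ≤ ∑ i ∈ C, ‖v i‖ ^ 2 := Finset.sum_nonneg fun i _ => by positivity
      calc κ b / W b * (∑ i ∈ C, Real.sqrt (cw m i) * ‖v i‖) ^ 2 ≤
          κ b / W b * (W b * ∑ i ∈ C, ‖v i‖ ^ 2) := by gcongr
        _ = κ b * ∑ i ∈ C, ‖v i‖ ^ 2 := by field_simp
        _ ≤ 2 * ∑ i ∈ C, ‖v i‖ ^ 2 := by
          gcongr
          exact (hκ b).2
    have e3 : 2 * ∑ i ∈ Pa, ‖v i‖ ^ 2 + ∑ z ∈ P, (if ¬ a z ∧ far z then 2 * ‖v z‖ ^ 2 else 0) ≤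
        2 * ∑ i ∈ P, ‖v i‖ ^ 2 := by
      rw [hPa, Finset.sum_filter, Finset.mul_sum, Finset.mul_sum, ← Finset.sum_add_distrib]
      refine Finset.sum_le_sum fun z _ => ?_
      by_cases haz : a z
      · rw [if_pos haz, if_neg (fun h => h.1 haz), add_zero]
      · rw [if_neg haz, mul_zero, zero_add]
        split_ifs
        · exact le_rfl
        · positivity
    linarith
  have hmain := trace_D K k hk hsym Z hZ m hmc D hD2
  rw [← hP] at hmain
  have s1 : ∀ u : ℂ, Real.sqrt (cw m u / 4) = Real.sqrt (cw m u) / 2 := by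
    intro u
    rw [Real.sqrt_div (cw_nonneg m u), show (4 : ℝ) = 2 ^ 2 by norm_num,
      Real.sqrt_sq (by norm_num)]
  have s2 : ∀ u : ℂ, Real.sqrt (cw m u) * Real.sqrt (cw m u) = cw m u :=
    fun u => Real.mul_self_sqrt (cw_nonneg m u)
  have e2 : ∀ z ∈ P, ∀ w ∈ P, (2 * (D z w * (Real.sqrt (cw m z / 4) * Real.sqrt (cw m w / 4) *
          (2 * (K ((starRingEnd ℂ) z) w).re +
            2 * (K ((starRingEnd ℂ) z) ((starRingEnd ℂ) w)).re))) - (D z w) ^ 2) =
      (if a z ∧ a w ∧ π z = π w then (κ (π z) / W (π z) * (cw m z * cw m w) *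
        ((K ((starRingEnd ℂ) z) w).re + (K ((starRingEnd ℂ) z) ((starRingEnd ℂ) w)).re) -
          (κ (π z) / W (π z)) ^ 2 * (cw m z * cw m w)) else 0) +
      (if z = w ∧ (¬ a z ∧ far z) then (2 * (cw m z * ((K ((starRingEnd ℂ) z) z).re +
        (K ((starRingEnd ℂ) z) ((starRingEnd ℂ) z)).re)) - 4) else 0) := by
    intro z _ w _
    simp only [hD, s1]
    by_cases h : a z ∧ a w ∧ π z = π w
    · have h' : ¬ (z = w ∧ (¬ a z ∧ far z)) := fun h2 => h2.2.1 h.1
      rw [if_pos h, if_neg h', if_pos h, if_neg h', add_zero, add_zero]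
      set A := (K ((starRingEnd ℂ) z) w).re
      set B := (K ((starRingEnd ℂ) z) ((starRingEnd ℂ) w)).re
      set q := κ (π z) / W (π z)
      calc _ = q * ((Real.sqrt (cw m z) * Real.sqrt (cw m z)) *
            (Real.sqrt (cw m w) * Real.sqrt (cw m w))) * (A + B) -
            q ^ 2 * ((Real.sqrt (cw m z) * Real.sqrt (cw m z)) *
            (Real.sqrt (cw m w) * Real.sqrt (cw m w))) := by ring
        _ = _ := by rw [s2, s2]
    · rw [if_neg h, if_neg h, zero_add, zero_add]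
      by_cases h' : z = w ∧ (¬ a z ∧ far z)
      · rw [if_pos h', if_pos h']
        obtain ⟨rfl, -⟩ := h'
        set A := (K ((starRingEnd ℂ) z) z).re
        set B := (K ((starRingEnd ℂ) z) ((starRingEnd ℂ) z)).re
        calc _ = 2 * ((Real.sqrt (cw m z) * Real.sqrt (cw m z)) * (A + B)) - 4 := by ring
          _ = _ := by rw [s2]
      · rw [if_neg h', if_neg h']
        ring
  rw [Finset.sum_congr rfl fun z hz => Finset.sum_congr rfl fun w hw => e2 z hz w hw] at hmain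
  simp only [Finset.sum_add_distrib] at hmain
  rw [sum_if_pair P a π (fun z w => (κ (π z) / W (π z) * (cw m z * cw m w) *
        ((K ((starRingEnd ℂ) z) w).re + (K ((starRingEnd ℂ) z) ((starRingEnd ℂ) w)).re) -
          (κ (π z) / W (π z)) ^ 2 * (cw m z * cw m w))),
      sum_if_diag P (fun z => ¬ a z ∧ far z) (fun z => (2 * (cw m z * ((K ((starRingEnd ℂ) z) z).re +
        (K ((starRingEnd ℂ) z) ((starRingEnd ℂ) z)).re)) - 4))] at hmain
  exact hmain

end Pool.Agent.Q275.UM
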