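import Pool.Agent.Q97.UM.Stm11
import Pool.Agent.Q275.UM.IsoB

/-! # Project UM5, job ISOW: the counting inequality for isolated points, with weights -/

set_option autoImplicit false

open scoped BigOperators ComplexConjugate

namespace Pool.Agent.Q275.UM

open H370 TH803UC TH803CL

theorem cw_two_of_ne {Z : Finset ℂ} {m : ℂ → ℕ} (hm1 : ∀ z ∈ Z, 1 ≤ m z) {z : ℂ} (hz : z ∈ Z)
    (h : cw m z ≠ 1) : 2 ≤ cw m z := by
  have h1 := cw_ge hm1 hz
  rw [cw_nat] at h h1 ⊢
  set n := if z.im = 0 then m z else 2 * m z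
  have h2 : 1 ≤ n := by exact_mod_cast h1
  have h3 : n ≠ 1 := fun h4 => h (by rw [h4]; norm_num)
  have h4 : 2 ≤ n := by omega
  exact_mod_cast h4

open Classical in
/-- **JOB ISOW** -/
theorem t_ISOW : Pool.Agent.Q97.UM.S_ISOW := by
  intro E _ _ φ k hk hev h0 Z m hZ hm1 hmc ω hω a far ha hfar d η M hd hη hM hφ hωM
  set K : ℂ → ℂ → ℂ := fun z w => ω z * ω w * φ (z - w) with hK
  have hkk : ∀ z w, inner ℂ (ω z • k z) (ω w • k w) = K ((starRingEnd ℂ) z) w := by
    intro z w
    simp only [hK]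
    rw [inner_smul_left, inner_smul_right, hk, hω, ← hev (w - (starRingEnd ℂ) z), neg_sub]
    ring
  have hsym : ∀ z w, K z w = K w z := by
    intro z w
    simp only [hK]
    rw [← hev (z - w), neg_sub]
    ring
  have hKd : ∀ z, K z z = ω z ^ 2 := by
    intro z
    simp only [hK]
    rw [sub_self, h0]; ring
  have hKc : ∀ z, (K ((starRingEnd ℂ) z) ((starRingEnd ℂ) z)).re = (K z z).re := by
    intro z
    rw [hKd, hKd, hω, ← map_pow, Complex.conj_re]
  have hωn : ∀ z, ‖ω ((starRingEnd ℂ) z)‖ = ‖ω z‖ := fun z => by rw [hω, RCLike.norm_conj]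
  have hω1 : ∀ z, ‖1 - ω ((starRingEnd ℂ) z)‖ = ‖1 - ω z‖ := by
    intro z
    have h : 1 - ω ((starRingEnd ℂ) z) = (starRingEnd ℂ) (1 - ω z) := by
      rw [hω, map_sub, map_one]
    rw [h, RCLike.norm_conj]
  set P := Z.filter (fun z => 0 ≤ z.im) with hP
  set Pa := P.filter a with hPa
  have hPm : ∀ z ∈ P, z ∈ Z ∧ 0 ≤ z.im := fun z hz => by rwa [hP, Finset.mem_filter] at hz
  have hPam : ∀ z ∈ Pa, z ∈ P ∧ a z := fun z hz => Finset.mem_filter.1 hz
  set S := Pa.filter (fun z => |z.im| < d ∧ ∃ w ∈ Pa, w ≠ z ∧ |w.im| < d ∧ ‖z - w‖ < d) with hS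
  have hSm : ∀ z ∈ S, z ∈ Pa ∧ |z.im| < d ∧ ∃ w ∈ Pa, w ≠ z ∧ |w.im| < d ∧ ‖z - w‖ < d :=
    fun z hz => Finset.mem_filter.1 hz
  obtain ⟨ρ, hρS, hρd, hρ2⟩ := pairing S hd (by
    intro z hz
    obtain ⟨h1, h2, w, hw, hwz, hwi, hwd⟩ := hSm z hz
    refine ⟨w, Finset.mem_filter.2 ⟨hw, hwi, z, h1, Ne.symm hwz, h2, ?_⟩, hwz, hwd⟩
    rwa [norm_sub_rev])
  set π : ℂ → ℂ := fun z => if z ∈ S then ρ z else z with hπ
  have hπS : ∀ z ∈ S, π z = ρ z := fun z hz => by simp only [hπ]; rw [if_pos hz]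
  have hπN : ∀ z, z ∉ S → π z = z := fun z hz => by simp only [hπ]; rw [if_neg hz]
  have hclose : ∀ z w, π z = π w → z = w ∨ (z ∈ S ∧ w ∈ S ∧ ‖z - w‖ < 4 * d) := by
    intro z w h
    by_cases hz : z ∈ S
    · by_cases hw : w ∈ S
      · right
        rw [hπS z hz, hπS w hw] at h
        refine ⟨hz, hw, ?_⟩
        have a1 := hρd z hz
        have a2 := hρd w hw
        rw [norm_sub_rev] at a2
        calc ‖z - w‖ = ‖(z - ρ z) + (ρ w - w)‖ := by congr 1; rw [h]; ring
          _ ≤ ‖z - ρ z‖ + ‖ρ w - w‖ := norm_add_le _ _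
          _ < 4 * d := by linarith
      · exfalso
        rw [hπS z hz, hπN w hw] at h
        exact hw (h ▸ hρS z hz)
    · by_cases hw : w ∈ S
      · exfalso
        rw [hπN z hz, hπS w hw] at h
        exact hz (h ▸ hρS w hw)
      · left
        rwa [hπN z hz, hπN w hw] at h
  have him2 : ∀ z : ℂ, ‖(starRingEnd ℂ) z - z‖ = 2 * |z.im| := by
    intro z
    have e1 : (starRingEnd ℂ) z - z = ((-(2 * z.im) : ℝ) : ℂ) * Complex.I := by
      apply Complex.ext
      · simp
      · simp; ring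
    rw [e1, norm_mul, Complex.norm_I, mul_one, Complex.norm_real, Real.norm_eq_abs, abs_neg,
      abs_mul, abs_of_pos (by norm_num : (0 : ℝ) < 2)]
  set W : ℂ → ℝ := fun b => ∑ z ∈ Pa.filter (fun z => π z = b), cw m z with hW
  set κ : ℂ → ℝ := fun b => if W b = 1 then 1 else 2 with hκ
  have hκ1 : ∀ b, 0 ≤ κ b ∧ κ b ≤ 2 := by
    intro b; simp only [hκ]; split_ifs <;> norm_num
  have hT := trace_cl K (fun z => ω z • k z) hkk hsym Z hZ m hmc hm1 a far π κ W hκ1
    (fun b => rfl)
  rw [← hP, ← hPa] at hT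
  set Err : ℂ → ℝ := fun z => 8 * ‖1 - ω z‖ * (1 + ‖ω z‖) + 32 * M ^ 2 * (η + ‖1 - ω z‖) with hErr
  -- the inequality for a cluster
  have key : ∀ b ∈ Pa.image π, (2 * W b - (if W b = 1 then 1 else 0)) -
      ∑ z ∈ Pa.filter (fun z => π z = b), cw m z * Err z +
      ∑ z ∈ Pa.filter (fun z => π z = b), 2 * cw m z * ((K ((starRingEnd ℂ) z) z).re - (K z z).re) ≤
      ∑ z ∈ Pa.filter (fun z => π z = b), ∑ w ∈ Pa.filter (fun z => π z = b),
        (κ (π z) / W (π z) * (cw m z * cw m w) *
        ((K ((starRingEnd ℂ) z) w).re + (K ((starRingEnd ℂ) z) ((starRingEnd ℂ) w)).re) -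
          (κ (π z) / W (π z)) ^ 2 * (cw m z * cw m w)) := by
    intro b hb
    obtain ⟨C, hC⟩ : ∃ C, C = Pa.filter (fun z => π z = b) := ⟨_, rfl⟩
    have hWC : W b = ∑ z ∈ C, cw m z := by rw [hC]
    rw [← hC]
    have hCm : ∀ z ∈ C, z ∈ Pa ∧ π z = b := fun z hz => by rwa [hC, Finset.mem_filter] at hz
    obtain ⟨z0, hz0, hz0b⟩ := Finset.mem_image.1 hb
    have hz0C : z0 ∈ C := by
      rw [hC]
      exact Finset.mem_filter.2 ⟨hz0, hz0b⟩
    by_cases hcard : C.card = 1
    · -- one point
      obtain ⟨z, hz⟩ := Finset.card_eq_one.1 hcard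
      have hzC : z ∈ C := by rw [hz]; exact Finset.mem_singleton_self z
      have hzP := (hPam z (hCm z hzC).1).1
      rw [hz] at hWC ⊢
      rw [Finset.sum_singleton] at hWC
      rw [Finset.sum_singleton, Finset.sum_singleton, Finset.sum_singleton, Finset.sum_singleton,
        (hCm z hzC).2, hKc z]
      have hR := sq_re_ge (ω z)
      rw [← hKd] at hR
      have hx0 := norm_nonneg (1 - ω z)
      have hy0 := norm_nonneg (ω z)
      have hX0 : 0 ≤ ‖1 - ω z‖ * (1 + ‖ω z‖) := by positivity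
      have hE : 8 * (‖1 - ω z‖ * (1 + ‖ω z‖)) ≤ Err z := by
        simp only [hErr]
        have : 0 ≤ 32 * M ^ 2 * (η + ‖1 - ω z‖) := by positivity
        linarith
      by_cases hw : W b = 1
      · have hreal : z.im = 0 := by
          by_contra hne
          have b1 := cw_two hm1 (hPm z hzP).1 hne
          rw [← hWC, hw] at b1
          linarith
        have hc : (starRingEnd ℂ) z = z := Complex.conj_eq_iff_im.mpr hreal
        have hk1 : κ b = 1 := by simp only [hκ]; rw [if_pos hw]
        rw [if_pos hw, hk1, hc, ← hWC, hw]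
        linarith
      · have hk2 : κ b = 2 := by simp only [hκ]; rw [if_neg hw]
        have hW2 : 2 ≤ W b := by
          rw [hWC] at hw ⊢
          exact cw_two_of_ne hm1 (hPm z hzP).1 hw
        rw [if_neg hw, hk2, ← hWC]
        have hW0 : W b ≠ 0 := by linarith
        set w := W b
        set A := (K ((starRingEnd ℂ) z) z).re
        set R := (K z z).re
        have e1 : 2 / w * (w * w) * (A + R) - (2 / w) ^ 2 * (w * w) = 2 * w * (A + R) - 4 := by
          field_simp
          ring
        rw [e1]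
        have h1 : w * (8 * (‖1 - ω z‖ * (1 + ‖ω z‖))) ≤ w * Err z :=
          mul_le_mul_of_nonneg_left hE (by linarith)
        have h2 : w * (1 - ‖1 - ω z‖ * (1 + ‖ω z‖)) ≤ w * R :=
          mul_le_mul_of_nonneg_left hR (by linarith)
        have h3 : 0 ≤ w * (‖1 - ω z‖ * (1 + ‖ω z‖)) := mul_nonneg (by linarith) hX0
        linarith
    · -- several points
      have hcard2 : 1 < C.card := by
        have : 0 < C.card := Finset.card_pos.2 ⟨z0, hz0C⟩
        omega
      have hCS : ∀ z ∈ C, z ∈ S := by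
        intro z hz
        obtain ⟨w, hw, hwz⟩ := Finset.exists_mem_ne hcard2 z
        rcases hclose z w ((hCm z hz).2.trans (hCm w hw).2.symm) with h | h
        · exact absurd h.symm hwz
        · exact h.1
      have hCd : ∀ z ∈ C, ∀ w ∈ C, ‖z - w‖ ≤ 4 * d := by
        intro z hz w hw
        rcases hclose z w ((hCm z hz).2.trans (hCm w hw).2.symm) with h | h
        · rw [h, sub_self, norm_zero]
          linarith
        · exact h.2.2.le
      have hCi : ∀ z ∈ C, |z.im| < d := fun z hz => (hSm z (hCS z hz)).2.1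
      have hCω : ∀ z ∈ C, ‖ω z‖ ≤ M := fun z hz =>
        hωM z (hPm z (hPam z (hCm z hz).1).1).1 (hPam z (hCm z hz).1).2 (hCi z hz)
      have hW2 : 2 ≤ W b := by
        obtain ⟨w, hw, hwz⟩ := Finset.exists_mem_ne hcard2 z0
        rw [hWC]
        have h1 : cw m w + cw m z0 ≤ ∑ z ∈ C, cw m z := by
          rw [← Finset.sum_pair hwz]
          refine Finset.sum_le_sum_of_subset_of_nonneg ?_ fun u _ _ => cw_nonneg m u
          intro u hu
          rw [Finset.mem_insert, Finset.mem_singleton] at hu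
          rcases hu with rfl | rfl
          · exact hw
          · exact hz0C
        have h2 := cw_ge hm1 (hPm w (hPam w (hCm w hw).1).1).1
        have h3 := cw_ge hm1 (hPm z0 (hPam z0 hz0).1).1
        linarith
      have hw1 : W b ≠ 1 := fun h => by rw [h] at hW2; norm_num at hW2
      have hk2 : κ b = 2 := by simp only [hκ]; rw [if_neg hw1]
      have hcl := cl_multi C (cw m) (fun z => ‖1 - ω z‖) (fun z _ => cw_nonneg m z)
        (fun z _ => norm_nonneg _) (fun z w => (K ((starRingEnd ℂ) z) w).re)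
        (fun z w => (K ((starRingEnd ℂ) z) ((starRingEnd ℂ) w)).re) (fun z => (K z z).re) M η (W b)
        hM hη hWC (by linarith) ?_ ?_ ?_ ?_
      · have e1 : ∑ z ∈ C, ∑ w ∈ C, (κ (π z) / W (π z) * (cw m z * cw m w) *
            ((K ((starRingEnd ℂ) z) w).re + (K ((starRingEnd ℂ) z) ((starRingEnd ℂ) w)).re) -
            (κ (π z) / W (π z)) ^ 2 * (cw m z * cw m w)) =
            ∑ z ∈ C, ∑ w ∈ C, (2 / W b * (cw m z * cw m w) *
            ((K ((starRingEnd ℂ) z) w).re + (K ((starRingEnd ℂ) z) ((starRingEnd ℂ) w)).re) -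
            (2 / W b) ^ 2 * (cw m z * cw m w)) := by
          refine Finset.sum_congr rfl fun z hz => ?_
          rw [(hCm z hz).2, hk2]
        rw [e1, if_neg hw1]
        have e2 : 16 * M ^ 2 * ∑ z ∈ C, cw m z * (‖1 - ω z‖ + η) ≤ ∑ z ∈ C, cw m z * Err z := by
          rw [Finset.mul_sum]
          refine Finset.sum_le_sum fun z _ => ?_
          have h1 : 16 * M ^ 2 * (‖1 - ω z‖ + η) ≤ Err z := by
            simp only [hErr]
            have h2 : 0 ≤ 8 * ‖1 - ω z‖ * (1 + ‖ω z‖) := by positivity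
            have h3 : 0 ≤ M ^ 2 * (η + ‖1 - ω z‖) := by positivity
            linarith
          have h2 := mul_le_mul_of_nonneg_left h1 (cw_nonneg m z)
          linarith
        linarith
      · intro z hz w hw
        have h1 : ‖(starRingEnd ℂ) z - w‖ ≤ 6 * d := by
          calc ‖(starRingEnd ℂ) z - w‖ = ‖((starRingEnd ℂ) z - z) + (z - w)‖ := by congr 1; ring
            _ ≤ ‖(starRingEnd ℂ) z - z‖ + ‖z - w‖ := norm_add_le _ _
            _ ≤ 6 * d := by
              rw [him2]
              linarith [hCi z hz, hCd z hz w hw]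
        have h2 := near_one (ω ((starRingEnd ℂ) z)) (ω w) (φ ((starRingEnd ℂ) z - w))
          (by rw [hωn]; exact hCω z hz) hM (hCω w hw) (hφ _ h1)
        rw [hω1] at h2
        have h3 := (Complex.abs_re_le_norm _).trans h2
        rw [Complex.sub_re, Complex.one_re] at h3
        have h4 := (abs_le.1 h3).1
        change 1 - (‖1 - ω z‖ + M * ‖1 - ω w‖ + M ^ 2 * η) ≤
          (ω ((starRingEnd ℂ) z) * ω w * φ ((starRingEnd ℂ) z - w)).re
        linarith
      · intro z hz w hw
        have h1 : ‖(starRingEnd ℂ) z - (starRingEnd ℂ) w‖ ≤ 6 * d := by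
          rw [← map_sub, RCLike.norm_conj]
          linarith [hCd z hz w hw]
        have h2 := near_one (ω ((starRingEnd ℂ) z)) (ω ((starRingEnd ℂ) w))
          (φ ((starRingEnd ℂ) z - (starRingEnd ℂ) w))
          (by rw [hωn]; exact hCω z hz) hM (by rw [hωn]; exact hCω w hw) (hφ _ h1)
        rw [hω1, hω1] at h2
        have h3 := (Complex.abs_re_le_norm _).trans h2
        rw [Complex.sub_re, Complex.one_re] at h3
        have h4 := (abs_le.1 h3).1
        change 1 - (‖1 - ω z‖ + M * ‖1 - ω w‖ + M ^ 2 * η) ≤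
          (ω ((starRingEnd ℂ) z) * ω ((starRingEnd ℂ) w) *
            φ ((starRingEnd ℂ) z - (starRingEnd ℂ) w)).re
        linarith
      · intro z hz
        have h1 : ‖(starRingEnd ℂ) z - z‖ ≤ 6 * d := by
          rw [him2]
          linarith [hCi z hz]
        have h2 := near_one (ω ((starRingEnd ℂ) z)) (ω z) (φ ((starRingEnd ℂ) z - z))
          (by rw [hωn]; exact hCω z hz) hM (hCω z hz) (hφ _ h1)
        rw [hω1] at h2
        have h3 := (Complex.abs_re_le_norm _).trans h2
        rw [Complex.sub_re, Complex.one_re] at h3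
        have h4 := (abs_le.1 h3).2
        change (ω ((starRingEnd ℂ) z) * ω z * φ ((starRingEnd ℂ) z - z)).re ≤
          1 + (‖1 - ω z‖ + M * ‖1 - ω z‖ + M ^ 2 * η)
        linarith
      · intro z hz
        have h1 : ‖z - z‖ ≤ 6 * d := by
          rw [sub_self, norm_zero]
          linarith
        have h2 := near_one (ω z) (ω z) (φ (z - z)) (hCω z hz) hM (hCω z hz) (hφ _ h1)
        have h3 := (Complex.abs_re_le_norm _).trans h2
        rw [Complex.sub_re, Complex.one_re] at h3
        have h4 := (abs_le.1 h3).1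
        change 1 - (‖1 - ω z‖ + M * ‖1 - ω z‖ + M ^ 2 * η) ≤ (ω z * ω z * φ (z - z)).re
        linarith
  rw [sum_fib] at hT
  have hks := Finset.sum_le_sum key
  rw [Finset.sum_add_distrib, Finset.sum_sub_distrib, Finset.sum_sub_distrib, ← Finset.mul_sum,
    ← sum_fib1 Pa π (fun z => cw m z), ← sum_fib1 Pa π (fun z => cw m z * Err z),
    ← sum_fib1 Pa π (fun z => 2 * cw m z * ((K ((starRingEnd ℂ) z) z).re - (K z z).re)),
    Finset.sum_boole] at hks
  -- the isolated points
  have hcard : (((Pa.image π).filter (fun b => W b = 1)).card : ℝ) ≤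
      ((Z.filter (fun z => a z ∧ z.im = 0 ∧ m z = 1 ∧
        ∀ w ∈ Z, a w → w ≠ z → d ≤ ‖z - w‖)).card : ℝ) := by
    have : (Pa.image π).filter (fun b => W b = 1) ⊆ Z.filter (fun z => a z ∧ z.im = 0 ∧ m z = 1 ∧
        ∀ w ∈ Z, a w → w ≠ z → d ≤ ‖z - w‖) := by
      intro b hb
      rw [Finset.mem_filter, Finset.mem_image] at hb
      obtain ⟨⟨z, hz, rfl⟩, hWb⟩ := hb
      have hzS : z ∉ S := by
        intro hzS
        obtain ⟨u, hu, v, hv, huv, hu2, hv2⟩ := hρ2 z hzS
        have huP := (hSm u hu).1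
        have hvP := (hSm v hv).1
        have h1 : cw m u + cw m v ≤ W (π z) := by
          simp only [hW]
          rw [← Finset.sum_pair huv]
          refine Finset.sum_le_sum_of_subset_of_nonneg ?_ fun w _ _ => cw_nonneg m w
          intro w hw
          rw [Finset.mem_insert, Finset.mem_singleton] at hw
          rw [Finset.mem_filter]
          rcases hw with rfl | rfl
          · exact ⟨huP, by rw [hπS _ hu, hπS z hzS, hu2]⟩
          · exact ⟨hvP, by rw [hπS _ hv, hπS z hzS, hv2]⟩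
        have h2 := cw_ge hm1 (hPm u (hPam u huP).1).1
        have h3 := cw_ge hm1 (hPm v (hPam v hvP).1).1
        linarith
      have hπz := hπN z hzS
      have hzP := (hPam z hz).1
      have h1 : cw m z ≤ 1 := by
        rw [← hWb]
        simp only [hW]
        refine Finset.single_le_sum (f := fun z => cw m z) (fun w _ => cw_nonneg m w) ?_
        rw [Finset.mem_filter]
        exact ⟨hz, rfl⟩
      have h2 : z.im = 0 := by
        by_contra hne
        have := cw_two hm1 (hPm z hzP).1 hne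
        linarith
      have h3 : m z = 1 := by
        have h4 : cw m z = m z := by unfold cw; rw [if_pos h2]
        rw [h4] at h1
        have h5 : m z ≤ 1 := by exact_mod_cast h1
        have := hm1 z (hPm z hzP).1
        omega
      rw [hπz, Finset.mem_filter]
      refine ⟨(hPm z hzP).1, (hPam z hz).2, h2, h3, ?_⟩
      have hup : ∀ w ∈ Pa, w ≠ z → d ≤ ‖z - w‖ := by
        intro w hw hwz
        by_contra hlt
        push Not at hlt
        apply hzS
        rw [hS, Finset.mem_filter]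
        refine ⟨hz, by rw [h2, abs_zero]; exact hd, w, hw, hwz, ?_, hlt⟩
        have h6 : w.im = -(z - w).im := by rw [Complex.sub_im, h2]; ring
        rw [h6, abs_neg]
        exact (Complex.abs_im_le_norm _).trans_lt hlt
      intro w hw haw hwz
      by_cases hw0 : 0 ≤ w.im
      · exact hup w (Finset.mem_filter.2 ⟨Finset.mem_filter.2 ⟨hw, hw0⟩, haw⟩) hwz
      · have h7 : (starRingEnd ℂ) z = z := Complex.conj_eq_iff_im.mpr h2
        have h8 := hup ((starRingEnd ℂ) w) (Finset.mem_filter.2 ⟨Finset.mem_filter.2 ⟨hZ w hw, by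
          rw [Complex.conj_im]; linarith [not_le.1 hw0]⟩, (ha w).2 haw⟩) (by
            intro h
            apply hwz
            have := congrArg (starRingEnd ℂ) h
            rwa [Complex.conj_conj, h7] at this)
        rwa [← h7, ← map_sub, RCLike.norm_conj] at h8
    exact_mod_cast Finset.card_le_card this
  -- sums over all points
  have f1 : ∑ z ∈ Pa, cw m z = ∑ z ∈ Z.filter a, (m z : ℝ) := by
    have h1 := split_real Z hZ m hmc (fun z => if a z then (1 : ℝ) else 0)
      (fun z => by simp only [ha])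
    have e1 : ∑ z ∈ Pa, cw m z = ∑ z ∈ P, if a z then cw m z else 0 := Finset.sum_filter _ _
    have e2 : ∑ z ∈ Z.filter a, (m z : ℝ) = ∑ z ∈ Z, if a z then (m z : ℝ) else 0 :=
      Finset.sum_filter _ _
    rw [e1, e2]
    rw [← hP] at h1
    have h2 : ∀ z ∈ Z, (m z : ℝ) * (if a z then (1 : ℝ) else 0) = if a z then (m z : ℝ) else 0 := by
      intro z _
      split_ifs <;> simp
    have h3 : ∀ z ∈ P, cw m z * (if a z then (1 : ℝ) else 0) = if a z then cw m z else 0 := by
      intro z _
      split_ifs <;> simp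
    rw [Finset.sum_congr rfl h2, Finset.sum_congr rfl h3] at h1
    exact h1.symm
  have f2 : ∑ z ∈ Pa, cw m z * Err z = ∑ z ∈ Z.filter a, (m z : ℝ) * Err z := by
    have h1 := split_real Z hZ m hmc (fun z => if a z then Err z else 0) (fun z => by
      simp only [ha, hErr, hωn, hω1])
    have e1 : ∑ z ∈ Pa, cw m z * Err z = ∑ z ∈ P, if a z then cw m z * Err z else 0 :=
      Finset.sum_filter _ _
    have e2 : ∑ z ∈ Z.filter a, (m z : ℝ) * Err z = ∑ z ∈ Z, if a z then (m z : ℝ) * Err z else 0 :=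
      Finset.sum_filter _ _
    rw [e1, e2]
    rw [← hP] at h1
    have h2 : ∀ z ∈ Z, (m z : ℝ) * (if a z then Err z else 0) =
        if a z then (m z : ℝ) * Err z else 0 := by
      intro z _
      split_ifs <;> simp
    have h3 : ∀ z ∈ P, cw m z * (if a z then Err z else 0) = if a z then cw m z * Err z else 0 := by
      intro z _
      split_ifs <;> simp
    rw [Finset.sum_congr rfl h2, Finset.sum_congr rfl h3] at h1
    exact h1.symm
  -- the points without `a`
  set X : ℂ → ℝ := fun z => 2 * cw m z * ((K ((starRingEnd ℂ) z) z).re - (K z z).re) with hX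
  have f3 : ∑ z ∈ P, X z = ∑ z ∈ Pa, X z + ∑ z ∈ P, (if ¬ a z then X z else 0) := by
    have e1 : ∑ z ∈ Pa, X z = ∑ z ∈ P, if a z then X z else 0 := Finset.sum_filter _ _
    rw [e1, ← Finset.sum_add_distrib]
    refine Finset.sum_congr rfl fun z _ => ?_
    by_cases haz : a z
    · rw [if_pos haz, if_neg (not_not.2 haz), add_zero]
    · rw [if_neg haz, if_pos haz, zero_add]
  set t4 : ℂ → ℝ := fun z => if ¬ a z ∧ ¬ far z then
    4 * (m z : ℝ) * (‖ω z‖ ^ 2 * (‖φ (z - (starRingEnd ℂ) z)‖ + 1)) else 0 with ht4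
  set t5 : ℂ → ℝ := fun z => if ¬ a z ∧ far z then (m z : ℝ) * (8 * ‖ω z‖ ^ 2 + 4) else 0 with ht5
  have hre : ∀ z, |(ω z ^ 2).re| ≤ ‖ω z‖ ^ 2 := by
    intro z
    rw [← norm_pow]
    exact Complex.abs_re_le_norm _
  have hterm : ∀ z ∈ P, (if ¬ a z then X z else 0) ≤ (if ¬ a z ∧ far z then
        (2 * (cw m z * ((K ((starRingEnd ℂ) z) z).re + (K ((starRingEnd ℂ) z)
          ((starRingEnd ℂ) z)).re)) - 4) else 0) + t4 z + t5 z := by
    intro z hz
    have hzZ := hPm z hz
    have hmz : (1 : ℝ) ≤ m z := by exact_mod_cast hm1 z hzZ.1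
    have hr := abs_le.1 (hre z)
    by_cases haz : a z
    · simp only [ht4, ht5, haz, not_true_eq_false, false_and, if_false]
      linarith
    · by_cases hf : far z
      · have hc2 : cw m z = 2 * m z := by unfold cw; rw [if_neg (hfar z hf)]
        simp only [ht4, ht5, hX, haz, hf, not_true_eq_false, and_false, not_false_eq_true,
          and_self, if_true, if_false]
        rw [hKc, hKd, hc2]
        have h1 : -((m z : ℝ) * ‖ω z‖ ^ 2) ≤ (m z : ℝ) * (ω z ^ 2).re := by
          rw [← mul_neg]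
          exact mul_le_mul_of_nonneg_left hr.1 (by linarith)
        nlinarith
      · simp only [ht4, ht5, hX, haz, hf, not_false_eq_true, and_self, if_true, and_false,
          if_false]
        rw [hKd]
        by_cases h0' : z.im = 0
        · have hzc : (starRingEnd ℂ) z = z := Complex.conj_eq_iff_im.mpr h0'
          rw [hzc, hKd]
          have : 0 ≤ 4 * (m z : ℝ) * (‖ω z‖ ^ 2 * (‖φ (z - z)‖ + 1)) := by positivity
          linarith
        · have hc2 : cw m z = 2 * m z := by unfold cw; rw [if_neg h0']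
          have h1 : (K ((starRingEnd ℂ) z) z).re ≤ ‖ω z‖ ^ 2 * ‖φ (z - (starRingEnd ℂ) z)‖ := by
            refine (Complex.re_le_norm _).trans ?_
            simp only [hK]
            rw [norm_mul, norm_mul, hω, RCLike.norm_conj, ← hev ((starRingEnd ℂ) z - z), neg_sub]
            exact le_of_eq (by ring)
          rw [hc2]
          have h2 : (m z : ℝ) * ((K ((starRingEnd ℂ) z) z).re - (ω z ^ 2).re) ≤
              (m z : ℝ) * (‖ω z‖ ^ 2 * (‖φ (z - (starRingEnd ℂ) z)‖ + 1)) := by
            apply mul_le_mul_of_nonneg_left _ (by linarith)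
            linarith
          nlinarith
  have hsum := Finset.sum_le_sum hterm
  rw [Finset.sum_add_distrib, Finset.sum_add_distrib] at hsum
  have f4 : ∑ z ∈ P, t4 z ≤ ∑ z ∈ Z.filter (fun z => ¬ a z ∧ ¬ far z),
          4 * (m z : ℝ) * (‖ω z‖ ^ 2 * (‖φ (z - (starRingEnd ℂ) z)‖ + 1)) := by
    rw [Finset.sum_filter (fun z => ¬ a z ∧ ¬ far z)]
    exact Finset.sum_le_sum_of_subset_of_nonneg (Finset.filter_subset _ _) fun z _ _ => by
      simp only [ht4]
      split_ifs <;> positivity
  have f5 : ∑ z ∈ P, t5 z ≤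
      ∑ z ∈ Z.filter (fun z => ¬ a z ∧ far z), (m z : ℝ) * (8 * ‖ω z‖ ^ 2 + 4) := by
    rw [Finset.sum_filter (fun z => ¬ a z ∧ far z)]
    exact Finset.sum_le_sum_of_subset_of_nonneg (Finset.filter_subset _ _) fun z _ _ => by
      simp only [ht5]
      split_ifs <;> positivity
  have hT' : (∑ b ∈ Pa.image π, ∑ z ∈ Pa.filter (fun z => π z = b),
      ∑ w ∈ Pa.filter (fun z => π z = b),
        (κ (π z) / W (π z) * (cw m z * cw m w) *
        ((K ((starRingEnd ℂ) z) w).re + (K ((starRingEnd ℂ) z) ((starRingEnd ℂ) w)).re) -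
          (κ (π z) / W (π z)) ^ 2 * (cw m z * cw m w))) +
      ∑ z ∈ P, (if ¬ a z ∧ far z then
        (2 * (cw m z * ((K ((starRingEnd ℂ) z) z).re + (K ((starRingEnd ℂ) z)
          ((starRingEnd ℂ) z)).re)) - 4) else 0) ≤
      (∑ z ∈ Z, ∑ w ∈ Z, (m z : ℂ) * (m w : ℂ) * (K z w) ^ 2).re + ∑ z ∈ P, X z := hT
  rw [f3] at hT'
  rw [f1, f2] at hks
  linarith

end Pool.Agent.Q275.UM
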