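import Pool.Agent.TH803.CL.Geo
import Pool.Agent.TH803.UC.Count

/-! # Project UM5, job ISOW: bounds for one cluster -/

set_option autoImplicit false

open scoped BigOperators ComplexConjugate

namespace Pool.Agent.Q275.UM

open H370 TH803UC TH803CL

/-- one cluster with several points -/
theorem cl_multi (C : Finset ℂ) (c e : ℂ → ℝ) (hc : ∀ z ∈ C, 0 ≤ c z) (he : ∀ z ∈ C, 0 ≤ e z)
    (A B : ℂ → ℂ → ℝ) (B' : ℂ → ℝ) (M η W : ℝ) (hM : 1 ≤ M) (hη : 0 ≤ η) (hWd : W = ∑ z ∈ C, c z)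
    (hW : 0 < W) (hA : ∀ z ∈ C, ∀ w ∈ C, 1 - (e z + M * e w + M ^ 2 * η) ≤ A z w)
    (hB : ∀ z ∈ C, ∀ w ∈ C, 1 - (e z + M * e w + M ^ 2 * η) ≤ B z w)
    (hA2 : ∀ z ∈ C, A z z ≤ 1 + (e z + M * e z + M ^ 2 * η))
    (hB' : ∀ z ∈ C, 1 - (e z + M * e z + M ^ 2 * η) ≤ B' z) :
    4 * W - 4 - 16 * M ^ 2 * ∑ z ∈ C, c z * (e z + η) ≤
      ∑ z ∈ C, ∑ w ∈ C, (2 / W * (c z * c w) * (A z w + B z w) - (2 / W) ^ 2 * (c z * c w)) -
        ∑ z ∈ C, 2 * c z * (A z z - B' z) := by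
  obtain ⟨S1, hS1⟩ : ∃ S1, S1 = ∑ z ∈ C, c z * e z := ⟨_, rfl⟩
  have h1 : ∑ z ∈ C, ∑ w ∈ C, (2 / W * (2 - 2 * (M ^ 2 * η)) * (c z * c w) -
      4 / W * ((c z * e z) * c w) - 4 * M / W * (c z * (c w * e w)) - (2 / W) ^ 2 * (c z * c w)) ≤
      ∑ z ∈ C, ∑ w ∈ C, (2 / W * (c z * c w) * (A z w + B z w) - (2 / W) ^ 2 * (c z * c w)) := by
    refine Finset.sum_le_sum fun z hz => Finset.sum_le_sum fun w hw => ?_
    have h2 : 0 ≤ 2 / W * (c z * c w) := mul_nonneg (by positivity) (mul_nonneg (hc z hz) (hc w hw))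
    have h3 : 2 - 2 * (e z + M * e w + M ^ 2 * η) ≤ A z w + B z w := by
      linarith [hA z hz w hw, hB z hz w hw]
    have h4 := mul_le_mul_of_nonneg_left h3 h2
    have h5 : 2 / W * (c z * c w) * (2 - 2 * (e z + M * e w + M ^ 2 * η)) =
        2 / W * (2 - 2 * (M ^ 2 * η)) * (c z * c w) -
      4 / W * ((c z * e z) * c w) - 4 * M / W * (c z * (c w * e w)) := by ring
    linarith
  have h6 : ∑ z ∈ C, ∑ w ∈ C, (2 / W * (2 - 2 * (M ^ 2 * η)) * (c z * c w) -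
      4 / W * ((c z * e z) * c w) - 4 * M / W * (c z * (c w * e w)) - (2 / W) ^ 2 * (c z * c w)) =
      2 * (2 - 2 * (M ^ 2 * η)) * W - 4 * S1 - 4 * M * S1 - 4 := by
    simp only [Finset.sum_sub_distrib, ← Finset.mul_sum, ← hWd, ← hS1]
    simp only [← Finset.sum_mul, ← hWd, ← hS1]
    field_simp
    ring
  have h7 : ∑ z ∈ C, 2 * c z * (A z z - B' z) ≤ 4 * (1 + M) * S1 + 4 * (M ^ 2 * η) * W := by
    have h8 : ∑ z ∈ C, 2 * c z * (A z z - B' z) ≤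
        ∑ z ∈ C, (4 * (1 + M) * (c z * e z) + 4 * (M ^ 2 * η) * c z) := by
      refine Finset.sum_le_sum fun z hz => ?_
      have h9 : A z z - B' z ≤ 2 * (e z + M * e z + M ^ 2 * η) := by
        linarith [hA2 z hz, hB' z hz]
      have h10 := mul_le_mul_of_nonneg_left h9 (mul_nonneg zero_le_two (hc z hz))
      have h11 : 2 * c z * (2 * (e z + M * e z + M ^ 2 * η)) =
        4 * (1 + M) * (c z * e z) + 4 * (M ^ 2 * η) * c z := by ring
      linarith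
    rw [Finset.sum_add_distrib, ← Finset.mul_sum, ← Finset.mul_sum, ← hWd, ← hS1] at h8
    exact h8
  have h12 : ∑ z ∈ C, c z * (e z + η) = S1 + η * W := by
    rw [hS1, hWd, Finset.mul_sum, ← Finset.sum_add_distrib]
    exact Finset.sum_congr rfl fun z _ => by ring
  have hS0 : 0 ≤ S1 := by
    rw [hS1]
    exact Finset.sum_nonneg fun z hz => mul_nonneg (hc z hz) (he z hz)
  rw [h12]
  rw [h6] at h1
  have h13 : 8 * (1 + M) * S1 ≤ 16 * M ^ 2 * S1 := by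
    refine mul_le_mul_of_nonneg_right ?_ hS0
    nlinarith
  have h14 : 0 ≤ M ^ 2 * η * W := by positivity
  nlinarith

/-- a product near one -/
theorem near_one (x y p : ℂ) {M η : ℝ} (hx : ‖x‖ ≤ M) (hM : 1 ≤ M) (hy : ‖y‖ ≤ M)
    (hp : ‖p - 1‖ ≤ η) : ‖x * y * p - 1‖ ≤ ‖1 - x‖ + M * ‖1 - y‖ + M ^ 2 * η := by
  have h1 : x * y * p - 1 = (x - 1) + x * (y - 1) + x * y * (p - 1) := by ring
  rw [h1]
  refine (norm_add_le _ _).trans ?_
  refine add_le_add ((norm_add_le _ _).trans (add_le_add (norm_sub_rev _ _).le ?_)) ?_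
  · rw [norm_mul, norm_sub_rev y 1]
    exact mul_le_mul_of_nonneg_right hx (norm_nonneg _)
  · rw [norm_mul, norm_mul, sq]
    have h2 : ‖x‖ * ‖y‖ ≤ M * M := mul_le_mul hx hy (norm_nonneg _) (by linarith)
    exact mul_le_mul h2 hp (norm_nonneg _) (by positivity)

theorem sq_re_ge (x : ℂ) : 1 - ‖1 - x‖ * (1 + ‖x‖) ≤ (x ^ 2).re := by
  have h1 : ‖(1 : ℂ) - x ^ 2‖ ≤ ‖1 - x‖ * (1 + ‖x‖) := by
    have h2 : (1 : ℂ) - x ^ 2 = (1 - x) * (1 + x) := by ring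
    rw [h2, norm_mul]
    refine mul_le_mul_of_nonneg_left ?_ (norm_nonneg _)
    refine (norm_add_le _ _).trans ?_
    rw [norm_one]
  have h3 := (Complex.abs_re_le_norm _).trans h1
  rw [Complex.sub_re, Complex.one_re] at h3
  linarith [(abs_le.1 h3).2]

end Pool.Agent.Q275.UM
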